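import Pool.Agent.R81.EV.K6.Fin
import Pool.Agent.R81.EV.K8.Fin
import Pool.Agent.R81.EV.K10.Fin
import Pool.Agent.R81.EV.K12.Fin

/-!
# `T(n,k,k+1)` and the largest cocycles for `k = 6, 8, 10, 12`

`ex n k (k+1)` (`Pool.Agent.H120R2.CliqueDefs`) is `T(n,k,k+1)`, the largest number of edges of a
`k`-graph on `n` vertices without a complete `k`-graph on `k + 1` vertices. We prove that
`T(n,k,k+1) ≤ (c + o(1)) C(n,k)` with `c = 0.81673, 0.86811, 0.89674, 0.91494`; de Caen's bound
(1983) is `1 - 1/k = 0.83334, 0.875, 0.9, 0.91667`. For even `k` the `(k-1)`-dimensional cocycles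
have no such complete subgraph, so the bound also holds for them.

Outline. Let `T` be the `k`-graph of the non-edges of a `K_{k+1}^k`-free `k`-graph: every `k + 1`
vertices contain at least one member of `T`. The links of the `(k-3)`-sets of vertices are 3-graphs.
For every 3-graph, a sum of squares certificate on six vertices (one for each `k`, checked by the
kernel on all 3-graphs with six vertices) bounds the average of a function `v` of the number of
edges spanned by four vertices. The average over all links is an average over the `(k+1)`-sets of a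
polynomial in the number of members of `T` in the set, and this number is at least one.
-/

set_option autoImplicit false

open Filter Topology

namespace Pool.Agent.Results.MP_8ee768_co.EvenUniformities

open Pool.Agent.H120R2.Clique

/-- `G` is a `(k-1)`-dimensional cocycle on `Fin n`: a family of `k`-sets such that every
`(k+1)`-set contains an even number of its members. -/
def IsCocycle (k n : ℕ) (G : Finset (Finset (Fin n))) : Prop :=
  (∀ A ∈ G, A.card = k) ∧ ∀ S : Finset (Fin n), S.card = k + 1 → Even (G.filter (· ⊆ S)).card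

/-- a cocycle of even uniformity contains no complete `k`-graph on `k + 1` vertices -/
theorem cocycle_le {k n : ℕ} (hk : Even k) {G : Finset (Finset (Fin n))} (hG : IsCocycle k n G) :
    G.card ≤ ex n k (k + 1) := by
  refine le_ex hG.1 ?_
  rintro ⟨A, hA, hs⟩
  have h1 := hG.2 A hA
  have h2 : G.filter (· ⊆ A) = A.powersetCard k := by
    ext B
    rw [Finset.mem_filter, Finset.mem_powersetCard]
    constructor
    · rintro ⟨h3, h4⟩
      exact ⟨h4, hG.1 B h3⟩
    · rintro ⟨h3, h4⟩
      exact ⟨hs (Finset.mem_powersetCard.2 ⟨h3, h4⟩), h3⟩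
  rw [h2, Finset.card_powersetCard, hA, Nat.choose_succ_self_right] at h1
  exact (Nat.not_even_iff_odd.2 hk.add_one) h1

theorem upper (k : ℕ) (c : ℝ)
    (h : (k = 6 ∧ c = 0.81673) ∨ (k = 8 ∧ c = 0.86811) ∨ (k = 10 ∧ c = 0.89674) ∨
      (k = 12 ∧ c = 0.91494)) : turanDensity k (k + 1) ≤ c := by
  rcases h with ⟨rfl, rfl⟩ | ⟨rfl, rfl⟩ | ⟨rfl, rfl⟩ | ⟨rfl, rfl⟩
  · exact Pool.Agent.R81.EV.K6.main
  · exact Pool.Agent.R81.EV.K8.main
  · exact Pool.Agent.R81.EV.K10.main
  · exact Pool.Agent.R81.EV.K12.main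

/-- For `(k, c) = (6, 0.81673), (8, 0.86811), (10, 0.89674), (12, 0.91494)` the ratios
`T(n,k,k+1) / C(n,k)` converge to a limit which is at most `c`, and so, for every `ε > 0` and all
large `n`, every `(k-1)`-dimensional cocycle on `n` vertices has at most
`T(n,k,k+1) ≤ (c + ε) C(n,k)` members. -/
theorem result (k : ℕ) (c : ℝ)
    (h : (k = 6 ∧ c = 0.81673) ∨ (k = 8 ∧ c = 0.86811) ∨ (k = 10 ∧ c = 0.89674) ∨
      (k = 12 ∧ c = 0.91494)) :
    Tendsto (fun n : ℕ => (ex n k (k + 1) : ℝ) / (n.choose k : ℝ)) atTop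
      (𝓝 (turanDensity k (k + 1))) ∧
    turanDensity k (k + 1) ≤ c ∧
    ∀ ε : ℝ, 0 < ε → ∀ᶠ n : ℕ in atTop, ∀ G : Finset (Finset (Fin n)), IsCocycle k n G →
      (G.card : ℝ) ≤ ex n k (k + 1) ∧ (ex n k (k + 1) : ℝ) ≤ (c + ε) * (n.choose k : ℝ) := by
  have hk : Even k := by
    rcases h with ⟨rfl, -⟩ | ⟨rfl, -⟩ | ⟨rfl, -⟩ | ⟨rfl, -⟩ <;> decide
  refine ⟨ratio_tendsto k (k + 1), upper k c h, fun ε hε => ?_⟩
  have h1 : turanDensity k (k + 1) < c + ε := by linarith [upper k c h]
  filter_upwards [(ratio_tendsto k (k + 1)).eventually (gt_mem_nhds h1), eventually_ge_atTop k]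
    with n hn hkn G hG
  refine ⟨by exact_mod_cast cocycle_le hk hG, ?_⟩
  have h2 : (0 : ℝ) < (n.choose k : ℝ) := by exact_mod_cast Nat.choose_pos hkn
  rw [div_lt_iff₀ h2] at hn
  exact hn.le

end Pool.Agent.Results.MP_8ee768_co.EvenUniformities
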